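import Pool.Agent.U26Z.NS.Pr

set_option autoImplicit false

/-!
# The almost sure theorem: all intervals, all test functions
-/

namespace Pool.Agent.U26Z.NS

open Finset Filter Topology MeasureTheory ProbabilityTheory
open Pool.Agent.U26Z.NL (EE cm lamT noisy TF)
open Pool.Agent.U26Z.NP (rt rt_pow rt_log rt_tend cast_tend)

/-- the index set: test functions, intervals, forms -/
def Idx (k J N A : ℕ) : Finset (ℕ × (ℕ × ℕ) × ((Fin k → ℕ) × (Fin k → ℕ))) :=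
  (range J) ×ˢ ((range (N + 1) ×ˢ range (N + 1)) ×ˢ
    ((Fintype.piFinset fun _ : Fin k => range (A + 1)) ×ˢ (Fintype.piFinset fun _ : Fin k => range (A + 1))))

theorem Idx_card (k J N A : ℕ) : (Idx k J N A).card = J * ((N + 1) * (N + 1) * ((A + 1) ^ k * (A + 1) ^ k)) := by
  unfold Idx
  simp [Finset.card_product, Fintype.card_piFinset]

/-- the union bound is summable -/
theorem union_small (k : ℕ) {c : ℝ} (hc : 0 < c) {J A : ℕ → ℕ}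
    (hJ : ∀ r : ℝ, 0 < r → ∀ᶠ N : ℕ in atTop, (J N : ℝ) ≤ Real.exp ((N : ℝ) ^ r))
    (hA : ∀ r : ℝ, 0 < r → ∀ᶠ N : ℕ in atTop, (A N : ℝ) ≤ (N : ℝ) ^ r) :
    ∀ᶠ N : ℕ in atTop, ((Idx k (J N) N (A N)).card : ℝ) * Real.exp (-((N : ℝ) ^ c)) ≤ 1 / (N : ℝ) ^ 2 := by
  have hlog : ∀ᶠ N : ℕ in atTop, 2 * Real.log N ≤ (N : ℝ) ^ (c / 2) := by
    have := Pool.Agent.U26Z.NP.log_pow_small 2 1 (show 0 < c / 2 by positivity)
    filter_upwards [this] with N hN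
    rwa [pow_one] at hN
  filter_upwards [hJ (c / 2) (by positivity), hA 1 one_pos, hlog, eventually_ge_atTop 2,
    pow_ev (show 0 < c / 2 by positivity) (2 * k + 4)] with N h1 h2 h3 h4 h5
  have hN0 : (0 : ℝ) < N := by exact_mod_cast (by omega : 0 < N)
  obtain ⟨v, hv⟩ : ∃ v : ℝ, v = (N : ℝ) ^ (c / 2) := ⟨_, rfl⟩
  have hv2 : (N : ℝ) ^ c = v * v := by
    rw [hv, ← Real.rpow_add hN0]
    congr 1
    ring
  rw [← hv] at h1 h3 h5
  rw [Real.rpow_one] at h2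
  have hN1 : ((N : ℝ) + 1) ≤ (N : ℝ) ^ 2 := by
    have : (2 : ℝ) ≤ N := by exact_mod_cast h4
    nlinarith
  have hexpN : (N : ℝ) ^ 2 ≤ Real.exp v := by
    have h6 : (N : ℝ) ^ 2 = Real.exp (2 * Real.log N) := by
      rw [two_mul, Real.exp_add, Real.exp_log hN0, sq]
    rw [h6]
    exact Real.exp_le_exp.2 h3
  rw [Idx_card, le_div_iff₀ (by positivity), hv2]
  push_cast
  have hA1 : ((A N : ℝ) + 1) ≤ Real.exp v := by
    have : (A N : ℝ) + 1 ≤ N + 1 := by linarith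
    linarith
  have hN2 : ((N : ℝ) + 1) ≤ Real.exp v := hN1.trans hexpN
  have hev : 0 < Real.exp v := Real.exp_pos v
  have h6 : (J N : ℝ) * (((N : ℝ) + 1) * (N + 1) * (((A N : ℝ) + 1) ^ k * ((A N : ℝ) + 1) ^ k)) ≤
      Real.exp v * (Real.exp v * Real.exp v * (Real.exp v ^ k * Real.exp v ^ k)) := by
    have h7 : ((A N : ℝ) + 1) ^ k ≤ Real.exp v ^ k := pow_le_pow_left₀ (by positivity) hA1 k
    gcongr
  have h7 : Real.exp v * (Real.exp v * Real.exp v * (Real.exp v ^ k * Real.exp v ^ k)) *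
      Real.exp (-(v * v)) * Real.exp v = Real.exp ((2 * k + 4) * v - v * v) := by
    rw [← Real.exp_nat_mul, ← Real.exp_add, ← Real.exp_add, ← Real.exp_add, ← Real.exp_add,
      ← Real.exp_add, ← Real.exp_add]
    congr 1
    ring
  calc (J N : ℝ) * (((N : ℝ) + 1) * (N + 1) * (((A N : ℝ) + 1) ^ k * ((A N : ℝ) + 1) ^ k)) *
      Real.exp (-(v * v)) * (N : ℝ) ^ 2 ≤
      Real.exp v * (Real.exp v * Real.exp v * (Real.exp v ^ k * Real.exp v ^ k)) *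
      Real.exp (-(v * v)) * Real.exp v := by
        have h8 := Real.exp_pos (-(v * v))
        gcongr
    _ = Real.exp ((2 * k + 4) * v - v * v) := h7
    _ ≤ 1 := by
        apply Real.exp_le_one_iff.2
        nlinarith

variable {Ω : Type} [MeasurableSpace Ω] {μ : Measure Ω} [IsProbabilityMeasure μ] {ξ : ℕ → Ω → ℤ}
  {δ : ℕ → ℝ}

/-- the property at one precision -/
def Good (k : ℕ) (ε : ℝ) (J A : ℕ → ℕ) (W : ℕ → ℕ → ℕ → ℝ) (f : ℕ → ℤ) (N : ℕ) : Prop :=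
  ∀ j < J N, ∀ x H : ℕ, x + H ≤ N → (N : ℝ) ^ ε ≤ H → ∀ a b : Fin k → ℕ,
    (∀ i, 1 ≤ a i ∧ a i ≤ A N ∧ b i ≤ A N) → (∀ i j, i ≠ j → a i * b j ≠ a j * b i) →
    |ci (W N j) f a b x H| ≤ ε * H

theorem as_one (hind : iIndepFun ξ μ) (hm : ∀ p, Measurable (ξ p))
    (hξ : ∀ p ω, ξ p ω = 1 ∨ ξ p ω = -1) {d : ℝ} (hd : 0 < d) (hd1 : ∀ p, d ≤ δ p) (hd2 : ∀ p, δ p ≤ 1 / 2)
    (hμ : ∀ p, μ {ω | ξ p ω = -1} = ENNReal.ofReal (δ p)) {J A : ℕ → ℕ} {W : ℕ → ℕ → ℕ → ℝ}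
    (hW : ∀ N j n, |W N j n| ≤ 1)
    (hJ : ∀ r : ℝ, 0 < r → ∀ᶠ N : ℕ in atTop, (J N : ℝ) ≤ Real.exp ((N : ℝ) ^ r))
    (hA : ∀ r : ℝ, 0 < r → ∀ᶠ N : ℕ in atTop, (A N : ℝ) ≤ (N : ℝ) ^ r) (k : ℕ) (hk : 0 < k)
    {ε : ℝ} (hε : 0 < ε) (hε1 : ε ≤ 1) : ∀ᵐ ω ∂μ, ∀ᶠ N : ℕ in atTop, Good k ε J A W (noisy ξ ω) N := by
  classical
  obtain ⟨c, hc0, N₀, hN₀⟩ := prob_tail k hk hd hε hε1
  obtain ⟨B, hB⟩ : ∃ B : ℕ → Set Ω, B = fun N => {ω | ¬ Good k ε J A W (noisy ξ ω) N} := ⟨_, rfl⟩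
  have hev : ∀ᶠ N : ℕ in atTop, μ (B N) ≤ ENNReal.ofReal (1 / (N : ℝ) ^ 2) := by
    filter_upwards [union_small k hc0 hJ hA, eventually_ge_atTop N₀, hA c hc0] with N h1 h2 h3
    have hsub : B N ⊆ ⋃ v ∈ Idx k (J N) N (A N), {ω | (v.2.1.1 + v.2.1.2 ≤ N ∧ (N : ℝ) ^ ε ≤ v.2.1.2 ∧
        (∀ i, 1 ≤ v.2.2.1 i ∧ v.2.2.1 i ≤ A N ∧ v.2.2.2 i ≤ A N) ∧
        (∀ i j, i ≠ j → v.2.2.1 i * v.2.2.2 j ≠ v.2.2.1 j * v.2.2.2 i)) ∧
        ε * v.2.1.2 ≤ |ci (W N v.1) (noisy ξ ω) v.2.2.1 v.2.2.2 v.2.1.1 v.2.1.2|} := by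
      intro ω hω
      rw [hB] at hω
      simp only [Set.mem_setOf_eq] at hω
      unfold Good at hω
      push Not at hω
      obtain ⟨j, hj, x, H, hxH, hNH, a, b, hab, hdet, hbad⟩ := hω
      rw [Set.mem_iUnion₂]
      refine ⟨(j, (x, H), (a, b)), ?_, ?_⟩
      · unfold Idx
        simp only [mem_product, mem_range, Fintype.mem_piFinset]
        refine ⟨hj, ⟨by omega, by omega⟩, fun i => ?_, fun i => ?_⟩
        · have := (hab i).2.1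
          omega
        · have := (hab i).2.2
          omega
      · exact ⟨⟨hxH, hNH, hab, hdet⟩, hbad.le⟩
    have hone : ∀ v ∈ Idx k (J N) N (A N), μ {ω | (v.2.1.1 + v.2.1.2 ≤ N ∧ (N : ℝ) ^ ε ≤ v.2.1.2 ∧
        (∀ i, 1 ≤ v.2.2.1 i ∧ v.2.2.1 i ≤ A N ∧ v.2.2.2 i ≤ A N) ∧
        (∀ i j, i ≠ j → v.2.2.1 i * v.2.2.2 j ≠ v.2.2.1 j * v.2.2.2 i)) ∧
        ε * v.2.1.2 ≤ |ci (W N v.1) (noisy ξ ω) v.2.2.1 v.2.2.2 v.2.1.1 v.2.1.2|} ≤
        ENNReal.ofReal (Real.exp (-((N : ℝ) ^ c))) := by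
      intro v _
      by_cases hv : (v.2.1.1 + v.2.1.2 ≤ N ∧ (N : ℝ) ^ ε ≤ v.2.1.2 ∧
        (∀ i, 1 ≤ v.2.2.1 i ∧ v.2.2.1 i ≤ A N ∧ v.2.2.2 i ≤ A N) ∧
        (∀ i j, i ≠ j → v.2.2.1 i * v.2.2.2 j ≠ v.2.2.1 j * v.2.2.2 i))
      · have h4 := hN₀ N h2 hind hm hξ hd1 hd2 hμ (W N v.1) (hW N v.1) v.2.1.1 v.2.1.2 hv.1 hv.2.1
          v.2.2.1 v.2.2.2 (fun i => ⟨(hv.2.2.1 i).1, le_trans (by exact_mod_cast (hv.2.2.1 i).2.1) h3,
            le_trans (by exact_mod_cast (hv.2.2.1 i).2.2) h3⟩) hv.2.2.2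
        refine (measure_mono ?_).trans h4
        intro ω hω
        exact hω.2
      · have h4 : {ω | (v.2.1.1 + v.2.1.2 ≤ N ∧ (N : ℝ) ^ ε ≤ v.2.1.2 ∧
            (∀ i, 1 ≤ v.2.2.1 i ∧ v.2.2.1 i ≤ A N ∧ v.2.2.2 i ≤ A N) ∧
            (∀ i j, i ≠ j → v.2.2.1 i * v.2.2.2 j ≠ v.2.2.1 j * v.2.2.2 i)) ∧
            ε * v.2.1.2 ≤ |ci (W N v.1) (noisy ξ ω) v.2.2.1 v.2.2.2 v.2.1.1 v.2.1.2|} = (∅ : Set Ω) := by
          ext ω
          simp only [Set.mem_setOf_eq, Set.mem_empty_iff_false, iff_false]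
          exact fun h => hv h.1
        rw [h4, measure_empty]
        exact bot_le
    refine (measure_mono hsub).trans ((measure_biUnion_finset_le _ _).trans
      ((Finset.sum_le_sum hone).trans ?_))
    rw [Finset.sum_const, nsmul_eq_mul, ← ENNReal.ofReal_natCast,
      ← ENNReal.ofReal_mul (Nat.cast_nonneg _)]
    exact ENNReal.ofReal_le_ofReal h1
  obtain ⟨N1, hN1⟩ := eventually_atTop.1 hev
  have hsum : Summable (fun i : ℕ => 1 / ((i : ℝ) + 1) ^ 2) := by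
    have h2 := (summable_nat_add_iff 1).2 (Real.summable_one_div_nat_pow.2 (by norm_num : 1 < 2))
    simpa using h2
  have hBC : ∑' i, μ (B (i + (N1 + 1))) ≠ ⊤ := by
    refine ne_top_of_le_ne_top hsum.tsum_ofReal_ne_top (ENNReal.tsum_le_tsum fun i => ?_)
    refine (hN1 (i + (N1 + 1)) (by omega)).trans (ENNReal.ofReal_le_ofReal ?_)
    apply one_div_le_one_div_of_le (by positivity)
    apply pow_le_pow_left₀ (by positivity)
    push_cast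
    have : (0 : ℝ) ≤ N1 := Nat.cast_nonneg _
    linarith
  filter_upwards [ae_eventually_notMem hBC] with ω hω
  obtain ⟨I, hI⟩ := eventually_atTop.1 hω
  refine eventually_atTop.2 ⟨I + (N1 + 1), fun N hN => ?_⟩
  have h3 := hI (N - (N1 + 1)) (by omega)
  have h4 : N - (N1 + 1) + (N1 + 1) = N := by omega
  rw [h4, hB] at h3
  simpa using h3

/-- **the almost sure theorem** -/
theorem as_main (hind : iIndepFun ξ μ) (hm : ∀ p, Measurable (ξ p))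
    (hξ : ∀ p ω, ξ p ω = 1 ∨ ξ p ω = -1) {d : ℝ} (hd : 0 < d) (hd1 : ∀ p, d ≤ δ p) (hd2 : ∀ p, δ p ≤ 1 / 2)
    (hμ : ∀ p, μ {ω | ξ p ω = -1} = ENNReal.ofReal (δ p)) {J A : ℕ → ℕ} {W : ℕ → ℕ → ℕ → ℝ}
    (hW : ∀ N j n, |W N j n| ≤ 1)
    (hJ : ∀ r : ℝ, 0 < r → ∀ᶠ N : ℕ in atTop, (J N : ℝ) ≤ Real.exp ((N : ℝ) ^ r))
    (hA : ∀ r : ℝ, 0 < r → ∀ᶠ N : ℕ in atTop, (A N : ℝ) ≤ (N : ℝ) ^ r) :
    ∀ᵐ ω ∂μ, ∀ k : ℕ, 1 ≤ k → ∀ ε : ℝ, 0 < ε → ∀ᶠ N : ℕ in atTop, Good k ε J A W (noisy ξ ω) N := by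
  have h1 : ∀ᵐ ω ∂μ, ∀ k : ℕ, 1 ≤ k → ∀ m : ℕ, ∀ᶠ N : ℕ in atTop,
      Good k (1 / ((m : ℝ) + 1)) J A W (noisy ξ ω) N := by
    rw [ae_all_iff]
    intro k
    by_cases hk : 1 ≤ k
    swap
    · exact Eventually.of_forall fun ω h => absurd h hk
    have h2 : ∀ᵐ ω ∂μ, ∀ m : ℕ, ∀ᶠ N : ℕ in atTop, Good k (1 / ((m : ℝ) + 1)) J A W (noisy ξ ω) N := by
      rw [ae_all_iff]
      intro m
      refine as_one hind hm hξ hd hd1 hd2 hμ hW hJ hA k hk (by positivity) ?_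
      rw [div_le_one (by positivity)]
      have : (0 : ℝ) ≤ m := Nat.cast_nonneg m
      linarith
    filter_upwards [h2] with ω hω _
    exact hω
  filter_upwards [h1] with ω hω k hk ε hε
  obtain ⟨m, hm'⟩ := exists_nat_one_div_lt hε
  filter_upwards [hω k hk m, eventually_ge_atTop 1] with N hN hN1 j hj x H hxH hNH a b hab hdet
  have hN1' : (1 : ℝ) ≤ N := by exact_mod_cast hN1
  have h3 : (N : ℝ) ^ (1 / ((m : ℝ) + 1)) ≤ H :=
    (Real.rpow_le_rpow_of_exponent_le hN1' hm'.le).trans hNH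
  exact (hN j hj x H hxH h3 a b hab hdet).trans
    (mul_le_mul_of_nonneg_right hm'.le (Nat.cast_nonneg H))

/-- **all short intervals** -/
theorem as_short (hind : iIndepFun ξ μ) (hm : ∀ p, Measurable (ξ p))
    (hξ : ∀ p ω, ξ p ω = 1 ∨ ξ p ω = -1) {d : ℝ} (hd : 0 < d) (hd1 : ∀ p, d ≤ δ p) (hd2 : ∀ p, δ p ≤ 1 / 2)
    (hμ : ∀ p, μ {ω | ξ p ω = -1} = ENNReal.ofReal (δ p)) :
    ∀ᵐ ω ∂μ, ∀ k : ℕ, 1 ≤ k → ∀ ε : ℝ, 0 < ε → ∀ a b : Fin k → ℕ, (∀ i, 1 ≤ a i) →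
      (∀ i j, i ≠ j → a i * b j ≠ a j * b i) → ∀ᶠ x : ℕ in atTop, ∀ H : ℕ, (x : ℝ) ^ ε ≤ H → H ≤ x →
      |ci (fun _ => 1) (noisy ξ ω) a b x H| ≤ ε * H := by
  have h1 := as_main (J := fun _ => 1) (A := fun N => Nat.log 2 N) (W := fun _ _ _ => 1) hind hm hξ hd hd1
    hd2 hμ (fun _ _ _ => by norm_num) (fun r hr => by
      filter_upwards with N
      push_cast
      exact Real.one_le_exp (Real.rpow_nonneg (Nat.cast_nonneg N) r)) (fun r hr => by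
      have h2 := Pool.Agent.U26Z.NP.log_pow_small 2 1 hr
      filter_upwards [h2, eventually_ge_atTop 1] with N hN hN1
      refine le_trans ?_ hN
      have h4 := Real.natLog_le_logb N 2
      refine h4.trans ?_
      have h20 : (0 : ℝ) < Real.log 2 := Real.log_pos (by norm_num)
      have hl := Real.log_natCast_nonneg N
      have h6 := Real.log_two_gt_d9
      rw [Real.logb, pow_one, div_le_iff₀ (by push_cast; exact h20)]
      push_cast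
      nlinarith)
  filter_upwards [h1] with ω hω k hk ε hε a b ha hdet
  have h2 := hω k hk (ε / 2) (by positivity)
  have h3 : Tendsto (fun x : ℕ => 2 * x) atTop atTop := tendsto_id.const_mul_atTop' (by norm_num)
  have h5 : ∀ i, ∀ᶠ N : ℕ in atTop, a i ≤ Nat.log 2 N ∧ b i ≤ Nat.log 2 N := by
    intro i
    have h6 : ∀ᶠ N : ℕ in atTop, a i + b i ≤ Nat.log 2 N := by
      filter_upwards [eventually_ge_atTop (2 ^ (a i + b i))] with N hN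
      exact Nat.le_log_of_pow_le (by norm_num) hN
    filter_upwards [h6] with N hN
    omega
  filter_upwards [h3.eventually h2, h3.eventually (eventually_all.2 h5), eventually_ge_atTop 2]
    with x h6 h7 h8 H hxH hHx
  have hx0 : (0 : ℝ) < x := by exact_mod_cast (by omega : 0 < x)
  have h9 : ((2 * x : ℕ) : ℝ) ^ (ε / 2) ≤ H := by
    refine le_trans ?_ hxH
    have h10 : ((2 * x : ℕ) : ℝ) ≤ (x : ℝ) ^ (2 : ℝ) := by
      rw [show (2 : ℝ) = ((2 : ℕ) : ℝ) by norm_num, Real.rpow_natCast]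
      have : 2 * x ≤ x ^ 2 := by nlinarith
      exact_mod_cast this
    have h11 := Real.rpow_le_rpow (by positivity) h10 (show 0 ≤ ε / 2 by positivity)
    rw [← Real.rpow_mul hx0.le] at h11
    refine h11.trans (le_of_eq ?_)
    congr 1
    ring
  have h10 := h6 0 (by norm_num) x H (by omega) h9 a b (fun i => ⟨ha i, (h7 i).1, (h7 i).2⟩) hdet
  refine h10.trans (mul_le_mul_of_nonneg_right (by linarith) (Nat.cast_nonneg H))

end Pool.Agent.U26Z.NS
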