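import Pool.Agent.U26Z.NS.Cb
import Pool.Agent.U26Z.NL.Prob
import Pool.Agent.U26Z.NP.AS

set_option autoImplicit false

/-!
# The tail bound and the almost sure theorem for short intervals
-/

namespace Pool.Agent.U26Z.NS

open Finset Filter Topology MeasureTheory ProbabilityTheory
open Pool.Agent.U26Z.NL (EE cm lamT noisy TF)
open Pool.Agent.U26Z.NP (rt rt_pow rt_log rt_tend cast_tend)

/-- powers of `N` -/
theorem pow_ev {r : ℝ} (hr : 0 < r) (C : ℝ) : ∀ᶠ N : ℕ in atTop, C ≤ (N : ℝ) ^ r :=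
  ((tendsto_rpow_atTop hr).comp cast_tend).eventually_ge_atTop C

theorem sum_recip (C₁ : ℝ) (hC₁ : ∀ x : ℕ, 3 ≤ x →
    |∑ p ∈ (Icc 1 x).filter Nat.Prime, (1 : ℝ) / p - Real.log (Real.log x)| ≤ C₁) {y z : ℕ} (hy : 3 ≤ y)
    (hyz : y ≤ z) : Real.log (Real.log z) - Real.log (Real.log y) - 2 * C₁ ≤
      ∑ p ∈ (Icc 1 z).filter (fun p => p.Prime ∧ y < p), (1 : ℝ) / p := by
  have h1 := abs_le.1 (hC₁ y hy)
  have h2 := abs_le.1 (hC₁ z (hy.trans hyz))
  have h8 : ∑ p ∈ (Icc 1 z).filter Nat.Prime, (1 : ℝ) / p =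
      ∑ p ∈ (Icc 1 y).filter Nat.Prime, (1 : ℝ) / p +
      ∑ p ∈ (Icc 1 z).filter (fun p => p.Prime ∧ y < p), (1 : ℝ) / p := by
    rw [← Finset.sum_union]
    · congr 1
      ext p
      simp only [mem_filter, mem_union, mem_Icc]
      constructor
      · rintro ⟨⟨h8, h9⟩, h10⟩
        rcases le_or_gt p y with h11 | h11
        · exact Or.inl ⟨⟨h8, h11⟩, h10⟩
        · exact Or.inr ⟨⟨h8, h9⟩, h10, h11⟩
      · rintro (⟨⟨h8, h9⟩, h10⟩ | ⟨⟨h8, h9⟩, h10, h11⟩)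
        · exact ⟨⟨h8, by omega⟩, h10⟩
        · exact ⟨⟨h8, h9⟩, h10⟩
    · rw [Finset.disjoint_left]
      intro p hp hp'
      rw [mem_filter, mem_Icc] at hp hp'
      omega
  linarith [h1.2, h2.1]

/-- the tail bound on the cube, for large `N` -/
theorem tailN (k : ℕ) (hk : 0 < k) {d ε : ℝ} (hd : 0 < d) (hε : 0 < ε) (hε1 : ε ≤ 1) :
    ∃ (c : ℝ) (E : ℕ), 0 < c ∧ ∀ᶠ N : ℕ in atTop, ∀ δ : ℕ → ℝ, (∀ p, d ≤ δ p) → (∀ p, δ p ≤ 1 / 2) →
    ∀ w : ℕ → ℝ, (∀ n, |w n| ≤ 1) → ∀ x H : ℕ, x + H ≤ N → (N : ℝ) ^ ε ≤ H →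
    ∀ a b : Fin k → ℕ, (∀ i, 1 ≤ a i ∧ (a i : ℝ) ≤ (N : ℝ) ^ c ∧ (b i : ℝ) ≤ (N : ℝ) ^ c) →
    (∀ i j, i ≠ j → a i * b j ≠ a j * b i) →
    (∀ i, a i * H + (a i * x + b i) ≤ H ^ E) ∧
    EE δ ((Icc 1 (H ^ E)).filter Nat.Prime)
      (fun T => if ε * H ≤ |cw w (lamT T) a (fun i => a i * x + b i) H| then 1 else 0) ≤
      Real.exp (-((N : ℝ) ^ c)) := by
  obtain ⟨C₁, hC₁⟩ := Pool.Agent.Erdos456.Mert.mertens_inv
  have hC₁0 : 0 ≤ C₁ := (abs_nonneg _).trans (hC₁ 3 le_rfl)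
  obtain ⟨c, hc⟩ : ∃ c : ℝ, c = ε / 18 * Real.exp (-((88 / ε + 1) / d + 2 * C₁)) := ⟨_, rfl⟩
  have hc0 : 0 < c := by rw [hc]; positivity
  have hcε : c ≤ ε / 18 := by
    rw [hc]
    have : Real.exp (-((88 / ε + 1) / d + 2 * C₁)) ≤ 1 := Real.exp_le_one_iff.2 (by
      have : 0 ≤ (88 / ε + 1) / d + 2 * C₁ := by positivity
      linarith)
    nlinarith
  obtain ⟨E, hE⟩ : ∃ E : ℕ, E = ⌈3 / ε⌉₊ := ⟨_, rfl⟩
  have hEε : 3 ≤ ε * E := by
    have h1 : 3 / ε ≤ E := by rw [hE]; exact Nat.le_ceil _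
    rw [div_le_iff₀ hε] at h1
    linarith
  refine ⟨c, E, hc0, ?_⟩
  have hk0 : (0 : ℝ) < k := by exact_mod_cast hk
  obtain ⟨κ, hκ⟩ : ∃ κ : ℝ, κ = ε ^ 2 / (64 * k ^ 2 * (2 + E)) := ⟨_, rfl⟩
  have hκ0 : 0 < κ := by rw [hκ]; positivity
  obtain ⟨N1, hN1⟩ := eventually_atTop.1 (rt_log (show 1 ≤ 3 by norm_num))
  obtain ⟨N2, hN2⟩ := eventually_atTop.1 ((rt_tend (show 1 ≤ 3 by norm_num)).eventually_ge_atTop 3)
  filter_upwards [eventually_ge_atTop 3, pow_ev hc0 2, pow_ev hc0 (4 / ε),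
    pow_ev hε ((N1 : ℝ) + N2 + 2), pow_ev hc0 (2 / κ), pow_ev hc0 3] with N g1 g2 g3 g4 g5 g7
    δ hd1 hd2 w hw x H hxH hNH a b hab hdet
  have h0 : ∀ p, 0 ≤ δ p := fun p => hd.le.trans (hd1 p)
  have hN0 : (0 : ℝ) < N := by exact_mod_cast (by omega : 0 < N)
  have hN1' : (1 : ℝ) ≤ N := by exact_mod_cast (by omega : 1 ≤ N)
  obtain ⟨u, hu⟩ : ∃ u : ℝ, u = (N : ℝ) ^ c := ⟨_, rfl⟩
  rw [← hu] at g2 g3 g5 g7
  have hu2 : (N : ℝ) ^ (2 * c) = u ^ 2 := by
    rw [hu, ← Real.rpow_natCast, ← Real.rpow_mul hN0.le]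
    congr 1
    push_cast
    ring
  have hu3 : (N : ℝ) ^ (3 * c) = u ^ 3 := by
    rw [hu, ← Real.rpow_natCast, ← Real.rpow_mul hN0.le]
    congr 1
    push_cast
    ring
  have hHN1 : N1 + N2 + 2 ≤ H := by
    have : ((N1 : ℝ) + N2 + 2) ≤ H := g4.trans hNH
    exact_mod_cast this
  have hH0 : (0 : ℝ) < H := by exact_mod_cast (by omega : 0 < H)
  -- the parameter `y`
  obtain ⟨y, hy⟩ : ∃ y : ℕ, y = ⌈u ^ 2⌉₊ := ⟨_, rfl⟩
  have hyu : u ^ 2 ≤ y := by rw [hy]; exact Nat.le_ceil _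
  have hyu2 : (y : ℝ) ≤ u ^ 3 := by
    have h1 : (y : ℝ) < u ^ 2 + 1 := by rw [hy]; exact Nat.ceil_lt_add_one (by positivity)
    nlinarith
  have hyε : (y : ℝ) ≤ (N : ℝ) ^ (ε / 6) := by
    rw [← hu3] at hyu2
    exact hyu2.trans (Real.rpow_le_rpow_of_exponent_le hN1' (by linarith))
  have hy3 : 3 ≤ y := by
    have : (3 : ℝ) ≤ y := by nlinarith
    exact_mod_cast this
  have hu1 : u ≤ u ^ 2 := by nlinarith
  -- the parameter `z`
  obtain ⟨z, hz⟩ : ∃ z, z = rt 3 H := ⟨_, rfl⟩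
  have hz3 : 3 ≤ z := by rw [hz]; exact hN2 H (by omega)
  have hzH : z ^ 3 ≤ H := by rw [hz]; exact rt_pow (by norm_num) H
  have hlogz : Real.log H ≤ 6 * Real.log z := by
    have := hN1 H (by omega)
    rw [hz]
    push_cast at this
    linarith
  have hlogN : 0 < Real.log N := Real.log_pos (by exact_mod_cast (by omega : 1 < N))
  have hlogH : ε * Real.log N ≤ Real.log H := by
    have h1 := Real.log_le_log (Real.rpow_pos_of_pos hN0 ε) hNH
    rwa [Real.log_rpow hN0] at h1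
  have hlogy : Real.log y ≤ 3 * c * Real.log N := by
    have h1 := Real.log_le_log (by exact_mod_cast (by omega : 0 < y)) (hyu2.trans (le_of_eq hu3.symm))
    rwa [Real.log_rpow hN0] at h1
  have hlogy0 : 0 < Real.log y := Real.log_pos (by exact_mod_cast (by omega : 1 < y))
  have hlogz0 : 0 < Real.log z := Real.log_pos (by exact_mod_cast (by omega : 1 < z))
  have hyz : y ≤ z := by
    have h1 : Real.log y ≤ Real.log z := by nlinarith
    have h2 := (Real.log_le_log_iff (by exact_mod_cast (by omega : 0 < y))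
      (by exact_mod_cast (by omega : 0 < z))).1 h1
    exact_mod_cast h2
  have hyH : y ≤ H := by
    have : z ≤ z ^ 3 := Nat.le_self_pow (by norm_num) z
    omega
  -- the sum over the primes
  obtain ⟨M, hM⟩ : ∃ M, M = ∑ p ∈ (Icc 1 z).filter (fun p => p.Prime ∧ y < p), δ p / p := ⟨_, rfl⟩
  have hM1 : 88 / ε + 1 ≤ M := by
    have h1 := sum_recip C₁ hC₁ hy3 hyz
    have h2 : Real.log (ε / (18 * c)) ≤ Real.log (Real.log z) - Real.log (Real.log y) := by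
      rw [← Real.log_div hlogz0.ne' hlogy0.ne']
      apply Real.log_le_log (by positivity)
      rw [div_le_div_iff₀ (by positivity) hlogy0]
      calc ε * Real.log y ≤ ε * (3 * c * Real.log N) := mul_le_mul_of_nonneg_left hlogy hε.le
        _ = 3 * c * (ε * Real.log N) := by ring
        _ ≤ 3 * c * (6 * Real.log z) := mul_le_mul_of_nonneg_left (by linarith) (by positivity)
        _ = Real.log z * (18 * c) := by ring
    have h3 : Real.log (ε / (18 * c)) = (88 / ε + 1) / d + 2 * C₁ := by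
      have h4 : ε / (18 * c) = Real.exp ((88 / ε + 1) / d + 2 * C₁) := by
        rw [hc, Real.exp_neg]
        have := Real.exp_pos ((88 / ε + 1) / d + 2 * C₁)
        field_simp
      rw [h4, Real.log_exp]
    have h5 : (88 / ε + 1) / d ≤ ∑ p ∈ (Icc 1 z).filter (fun p => p.Prime ∧ y < p), (1 : ℝ) / p := by
      linarith
    have h6 : d * ∑ p ∈ (Icc 1 z).filter (fun p => p.Prime ∧ y < p), (1 : ℝ) / p ≤ M := by
      rw [hM, Finset.mul_sum]
      refine Finset.sum_le_sum fun p _ => ?_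
      rw [mul_one_div]
      exact div_le_div_of_nonneg_right (hd1 p) (Nat.cast_nonneg p)
    have h7 := mul_le_mul_of_nonneg_left h5 hd.le
    rw [mul_div_cancel₀ _ hd.ne'] at h7
    linarith
  have hsm : 1 / (y : ℝ) + 22 / M ≤ ε / 2 := by
    have hM0 : 0 < M := lt_of_lt_of_le (by positivity) hM1
    have h1 : 22 / M ≤ ε / 4 := by
      rw [div_le_iff₀ hM0]
      have h2 : 88 / ε ≤ M := by linarith
      rw [div_le_iff₀ hε] at h2
      linarith
    have h2 : 1 / (y : ℝ) ≤ ε / 4 := by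
      rw [div_le_iff₀ (by exact_mod_cast (by omega : 0 < y))]
      have h3 : 4 / ε ≤ y := by linarith
      rw [div_le_iff₀ hε] at h3
      linarith
    linarith
  -- the size of the forms
  have haN : ∀ i, a i ≤ N := by
    intro i
    have h1 : (a i : ℝ) ≤ N := by
      refine (hab i).2.1.trans ?_
      calc (N : ℝ) ^ c ≤ (N : ℝ) ^ (1 : ℝ) := Real.rpow_le_rpow_of_exponent_le hN1' (by linarith)
        _ = N := Real.rpow_one _
    exact_mod_cast h1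
  have hbN : ∀ i, b i ≤ N := by
    intro i
    have h1 : (b i : ℝ) ≤ N := by
      refine (hab i).2.2.trans ?_
      calc (N : ℝ) ^ c ≤ (N : ℝ) ^ (1 : ℝ) := Real.rpow_le_rpow_of_exponent_le hN1' (by linarith)
        _ = N := Real.rpow_one _
    exact_mod_cast h1
  have hU : ∀ i, a i * H + (a i * x + b i) ≤ H ^ E := by
    intro i
    have h1 : a i * H + (a i * x + b i) ≤ N ^ 3 := by
      have h2 : a i * (x + H) ≤ N * N := Nat.mul_le_mul (haN i) hxH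
      have h3 := hbN i
      have h4 : N * N + N ≤ N ^ 3 := by nlinarith
      rw [mul_add] at h2
      omega
    refine h1.trans ?_
    have h2 : ((N : ℝ) ^ ε) ^ E ≤ (H : ℝ) ^ E := pow_le_pow_left₀ (Real.rpow_nonneg hN0.le _) hNH E
    rw [← Real.rpow_natCast, ← Real.rpow_mul hN0.le] at h2
    have h3 : (N : ℝ) ^ (3 : ℕ) ≤ (N : ℝ) ^ (ε * E) := by
      rw [← Real.rpow_natCast]
      exact Real.rpow_le_rpow_of_exponent_le hN1' (by exact_mod_cast hEε)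
    exact_mod_cast h3.trans h2
  refine ⟨hU, ?_⟩
  have hay : ∀ i, a i ≤ y := by
    intro i
    have h1 : (a i : ℝ) ≤ y := by
      have h2 := (hab i).2.1
      rw [← hu] at h2
      linarith
    exact_mod_cast h1
  have hprod : ∀ i j, ((a i * b j : ℕ) : ℝ) ≤ y := by
    intro i j
    have h2 := (hab i).2.1
    have h3 := (hab j).2.2
    rw [← hu] at h2 h3
    push_cast
    have h4 : (a i : ℝ) * b j ≤ u * u := mul_le_mul h2 h3 (Nat.cast_nonneg _) (by linarith)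
    nlinarith
  have hdet2 : ∀ i j, i ≠ j → (a i * (a j * x + b j : ℕ) : ℤ) - a j * (a i * x + b i : ℕ) ≠ 0 ∧
      |(a i * (a j * x + b j : ℕ) : ℤ) - a j * (a i * x + b i : ℕ)| ≤ y := by
    intro i j hij
    have e : (a i * (a j * x + b j : ℕ) : ℤ) - a j * (a i * x + b i : ℕ) =
        ((a i * b j : ℕ) : ℤ) - ((a j * b i : ℕ) : ℤ) := by
      push_cast
      ring
    rw [e]
    constructor
    · have h1 := hdet i j hij
      intro h2
      apply h1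
      have h3 : ((a i * b j : ℕ) : ℤ) = ((a j * b i : ℕ) : ℤ) := by linarith
      exact_mod_cast h3
    · have h1 : a i * b j ≤ y := by exact_mod_cast hprod i j
      have h2 : a j * b i ≤ y := by exact_mod_cast hprod j i
      have h3 : ((a i * b j : ℕ) : ℤ) ≤ y := by exact_mod_cast h1
      have h4 : ((a j * b i : ℕ) : ℤ) ≤ y := by exact_mod_cast h2
      have h5 : (0 : ℤ) ≤ ((a i * b j : ℕ) : ℤ) := Int.natCast_nonneg _
      have h6 : (0 : ℤ) ≤ ((a j * b i : ℕ) : ℤ) := Int.natCast_nonneg _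
      rw [abs_le]
      constructor <;> linarith
  have key := cube (w := w) δ h0 hd2 hk hw (fun i => (hab i).1) (b := fun i => a i * x + b i) hay hdet2
    (by omega) hyH (by omega) (by omega) hzH hU hM (by
      have : 0 < 88 / ε := by positivity
      linarith) hε hsm
  refine key.trans ?_
  rw [← hκ, ← hu]
  have h1 : 2 * Real.exp (-(κ * y)) ≤ Real.exp 1 * Real.exp (-(κ * y)) := by
    apply mul_le_mul_of_nonneg_right _ (Real.exp_pos _).le
    have := Real.add_one_le_exp (1 : ℝ)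
    linarith
  refine h1.trans ?_
  rw [← Real.exp_add]
  apply Real.exp_le_exp.2
  have h2 : κ * u ^ 2 ≤ κ * y := mul_le_mul_of_nonneg_left hyu hκ0.le
  have h3 : 2 ≤ κ * u := by
    rw [div_le_iff₀ hκ0] at g5
    linarith
  nlinarith

section
variable {Ω : Type*} [MeasurableSpace Ω] {μ : Measure Ω} [IsProbabilityMeasure μ] {ξ : ℕ → Ω → ℤ}
  {δ : ℕ → ℝ}

/-- the correlation sum over the interval `(x, x + H]` -/
noncomputable def ci (w : ℕ → ℝ) (f : ℕ → ℤ) {k : ℕ} (a b : Fin k → ℕ) (x H : ℕ) : ℝ :=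
  ∑ n ∈ Ioc x (x + H), w n * ∏ i, (f (a i * n + b i) : ℝ)

theorem ci_eq (w : ℕ → ℝ) (f : ℕ → ℤ) {k : ℕ} (a b : Fin k → ℕ) (x H : ℕ) :
    ci w f a b x H = cw (fun m => w (x + m)) f a (fun i => a i * x + b i) H := by
  unfold ci cw
  have h1 : Ioc x (x + H) = (Icc 1 H).image (fun m => x + m) := by
    ext n
    rw [mem_Ioc, mem_image]
    constructor
    · rintro ⟨h1, h2⟩
      exact ⟨n - x, by rw [mem_Icc]; omega, by omega⟩
    · rintro ⟨m, hm, rfl⟩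
      rw [mem_Icc] at hm
      omega
  rw [h1, Finset.sum_image (fun x _ y _ h => by
    have h' : _ + _ = _ + _ := h
    omega)]
  refine Finset.sum_congr rfl fun m _ => ?_
  congr 1
  refine Finset.prod_congr rfl fun i _ => ?_
  have e : a i * (x + m) + b i = a i * m + (a i * x + b i) := by ring
  rw [e]

/-- the probability of a large correlation sum over an interval -/
theorem prob_tail (k : ℕ) (hk : 0 < k) {d ε : ℝ} (hd : 0 < d) (hε : 0 < ε) (hε1 : ε ≤ 1) :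
    ∃ c : ℝ, 0 < c ∧ ∃ N₀ : ℕ, ∀ N : ℕ, N₀ ≤ N →
    ∀ {Ω : Type} [MeasurableSpace Ω] {μ : Measure Ω} [IsProbabilityMeasure μ] {ξ : ℕ → Ω → ℤ}
    {δ : ℕ → ℝ}, iIndepFun ξ μ → (∀ p, Measurable (ξ p)) → (∀ p ω, ξ p ω = 1 ∨ ξ p ω = -1) →
    (∀ p, d ≤ δ p) → (∀ p, δ p ≤ 1 / 2) → (∀ p, μ {ω | ξ p ω = -1} = ENNReal.ofReal (δ p)) →
    ∀ w : ℕ → ℝ, (∀ n, |w n| ≤ 1) → ∀ x H : ℕ, x + H ≤ N → (N : ℝ) ^ ε ≤ H →
    ∀ a b : Fin k → ℕ, (∀ i, 1 ≤ a i ∧ (a i : ℝ) ≤ (N : ℝ) ^ c ∧ (b i : ℝ) ≤ (N : ℝ) ^ c) →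
    (∀ i j, i ≠ j → a i * b j ≠ a j * b i) →
    μ {ω | ε * H ≤ |ci w (noisy ξ ω) a b x H|} ≤ ENNReal.ofReal (Real.exp (-((N : ℝ) ^ c))) := by
  classical
  obtain ⟨c, E, hc0, hev⟩ := tailN k hk hd hε hε1
  obtain ⟨N₀, hN₀⟩ := eventually_atTop.1 hev
  refine ⟨c, hc0, N₀, fun N hN {Ω} _ {μ} _ {ξ} {δ} hind hm hξ hd1 hd2 hμ w hw x H hxH hNH a b hab hdet => ?_⟩
  have h0 : ∀ p, 0 ≤ δ p := fun p => hd.le.trans (hd1 p)
  obtain ⟨hU, hcube⟩ := hN₀ N hN δ hd1 hd2 (fun m => w (x + m)) (fun m => hw _) x H hxH hNH a b hab hdet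
  have h2 := Pool.Agent.U26Z.NL.prob_le hind hm h0 hd2 hμ ((Icc 1 (H ^ E)).filter Nat.Prime)
    (fun T => ε * H ≤ |cw (fun m => w (x + m)) (lamT T) a (fun i => a i * x + b i) H|)
  have h3 : {ω | ε * H ≤ |ci w (noisy ξ ω) a b x H|} =
      {ω | ε * H ≤ |cw (fun m => w (x + m)) (lamT (TF ξ ((Icc 1 (H ^ E)).filter Nat.Prime) ω)) a
        (fun i => a i * x + b i) H|} := by
    ext ω
    rw [Set.mem_setOf_eq, Set.mem_setOf_eq, ci_eq]
    have h4 : cw (fun m => w (x + m)) (noisy ξ ω) a (fun i => a i * x + b i) H =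
        cw (fun m => w (x + m)) (lamT (TF ξ ((Icc 1 (H ^ E)).filter Nat.Prime) ω)) a
        (fun i => a i * x + b i) H := by
      unfold cw
      refine Finset.sum_congr rfl fun n hn => ?_
      rw [mem_Icc] at hn
      congr 1
      refine Finset.prod_congr rfl fun i _ => ?_
      congr 1
      apply Pool.Agent.U26Z.NL.noisy_eq hξ
      intro p hp hpn
      rw [mem_filter, mem_Icc]
      refine ⟨⟨hp.one_lt.le, ?_⟩, hp⟩
      have h5 : 0 < a i * n := Nat.mul_pos (hab i).1 hn.1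
      have hpn' : p ∣ a i * n + (a i * x + b i) := hpn
      have h6 := Nat.le_of_dvd (by omega) hpn'
      have h7 : a i * n ≤ a i * H := Nat.mul_le_mul_left _ hn.2
      have h8 := hU i
      omega
    rw [h4]
  rw [h3]
  refine h2.trans (ENNReal.ofReal_le_ofReal ?_)
  convert hcube using 3

end

end Pool.Agent.U26Z.NS
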