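import Pool.Agent.U26Z.NL.Main

set_option autoImplicit false

/-!
# Correlations of a randomly flipped Liouville function over short intervals, on the cube
-/

namespace Pool.Agent.U26Z.NS

open Finset
open Pool.Agent.U26Z.NL (EE cm lamT nf BD NN cnt cop cntN L_ne NN_ne smallMean)

/-- the weighted correlation sum -/
noncomputable def cw (w : ℕ → ℝ) (f : ℕ → ℤ) {k : ℕ} (a b : Fin k → ℕ) (H : ℕ) : ℝ :=
  ∑ n ∈ Icc 1 H, w n * ∏ i, (f (a i * n + b i) : ℝ)

variable {k : ℕ} {a b : Fin k → ℕ} {w : ℕ → ℝ}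

theorem cw_eq (w : ℕ → ℝ) (ha : ∀ i, 1 ≤ a i) (H : ℕ) (T : Finset ℕ) :
    cw w (lamT T) a b H = ∑ n ∈ Icc 1 H, w n *
      (((cm (fun _ => -1) (NN a b n) : ℤ) : ℝ) * ∏ p ∈ T, (-1 : ℝ) ^ (NN a b n).factorization p) := by
  unfold cw
  refine Finset.sum_congr rfl fun n hn => ?_
  rw [mem_Icc] at hn
  congr 1
  have h1 : ∏ i, lamT T (a i * n + b i) = lamT T (NN a b n) := by
    unfold lamT NN
    rw [Pool.Agent.U26Z.NL.cm_prod _ _ _ (fun i _ => L_ne ha hn.1 i)]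
  have h2 : ∏ i, ((lamT T (a i * n + b i) : ℤ) : ℝ) = ((lamT T (NN a b n) : ℤ) : ℝ) := by
    rw [← h1]
    push_cast
    rfl
  rw [h2, Pool.Agent.U26Z.NL.lamT_eq]
  push_cast
  rfl

/-- the number of the `n ≤ H` for which `p` divides one of the forms -/
def Dn (a b : Fin k → ℕ) (H p : ℕ) : ℕ := ((Icc 1 H).filter (fun n => p ∣ NN a b n)).card

/-- bounded differences -/
theorem bdiff (hw : ∀ n, |w n| ≤ 1) (ha : ∀ i, 1 ≤ a i) (H : ℕ) (p : ℕ) (T : Finset ℕ) :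
    |cw w (lamT (insert p T)) a b H - cw w (lamT T) a b H| ≤ 2 * Dn a b H p := by
  classical
  by_cases hpT : p ∈ T
  · rw [Finset.insert_eq_of_mem hpT, sub_self, abs_zero]
    positivity
  · rw [cw_eq w ha, cw_eq w ha, ← Finset.sum_sub_distrib]
    have h1 : ∀ n ∈ Icc 1 H, |w n * (((cm (fun _ => -1) (NN a b n) : ℤ) : ℝ) *
        ∏ q ∈ insert p T, (-1 : ℝ) ^ (NN a b n).factorization q) -
        w n * (((cm (fun _ => -1) (NN a b n) : ℤ) : ℝ) *
          ∏ q ∈ T, (-1 : ℝ) ^ (NN a b n).factorization q)| ≤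
        2 * (if p ∣ NN a b n then 1 else 0) := by
      intro n _
      rw [Finset.prod_insert hpT]
      have h2 : w n * (((cm (fun _ => -1) (NN a b n) : ℤ) : ℝ) *
          ((-1) ^ (NN a b n).factorization p * ∏ q ∈ T, (-1 : ℝ) ^ (NN a b n).factorization q)) -
          w n * (((cm (fun _ => -1) (NN a b n) : ℤ) : ℝ) *
          ∏ q ∈ T, (-1 : ℝ) ^ (NN a b n).factorization q) =
          w n * (((cm (fun _ => -1) (NN a b n) : ℤ) : ℝ) *
            (∏ q ∈ T, (-1 : ℝ) ^ (NN a b n).factorization q)) *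
          ((-1) ^ (NN a b n).factorization p - 1) := by ring
      rw [h2, abs_mul, abs_mul (w n), abs_mul ((cm (fun _ => -1) (NN a b n) : ℤ) : ℝ),
        Pool.Agent.U26Z.NL.lam_abs', Pool.Agent.U26Z.NL.sgn_abs, one_mul, mul_one]
      have h6 := hw n
      split_ifs with h3
      · have h7 : |(-1 : ℝ) ^ (NN a b n).factorization p - 1| ≤ 2 := by
          rcases neg_one_pow_eq_or ℝ ((NN a b n).factorization p) with h4 | h4
          · rw [h4]; norm_num
          · rw [h4]; norm_num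
        calc |w n| * |(-1 : ℝ) ^ (NN a b n).factorization p - 1| ≤ 1 * 2 :=
              mul_le_mul h6 h7 (abs_nonneg _) (by norm_num)
          _ = _ := by ring
      · rw [Nat.factorization_eq_zero_of_not_dvd h3, pow_zero, sub_self, abs_zero, mul_zero, mul_zero]
    refine (Finset.abs_sum_le_sum_abs _ _).trans ((Finset.sum_le_sum h1).trans (le_of_eq ?_))
    rw [← Finset.mul_sum, Finset.sum_boole]
    rfl

/-- the conditional mean -/
theorem condMean (δ : ℕ → ℝ) (h0 : ∀ p, 0 ≤ δ p) (h1 : ∀ p, δ p ≤ 1 / 2) (hw : ∀ n, |w n| ≤ 1)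
    (ha : ∀ i, 1 ≤ a i) (H : ℕ) (T₁ F : Finset ℕ) (hd : Disjoint T₁ F) :
    |EE δ F (fun T => cw w (lamT (T₁ ∪ T)) a b H)| ≤
      ∑ n ∈ Icc 1 H, ∏ p ∈ F, nf (δ p) ((NN a b n).factorization p) := by
  have h2 : EE δ F (fun T => cw w (lamT (T₁ ∪ T)) a b H) =
      ∑ n ∈ Icc 1 H, w n * (((cm (fun _ => -1) (NN a b n) : ℤ) : ℝ) *
        (∏ p ∈ T₁, (-1 : ℝ) ^ (NN a b n).factorization p)) *
        ∏ p ∈ F, nf (δ p) ((NN a b n).factorization p) := by
    have h3 : ∀ T, T ⊆ F → cw w (lamT (T₁ ∪ T)) a b H =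
        ∑ n ∈ Icc 1 H, w n * (((cm (fun _ => -1) (NN a b n) : ℤ) : ℝ) *
        (∏ p ∈ T₁, (-1 : ℝ) ^ (NN a b n).factorization p)) *
        ∏ p ∈ T, (-1 : ℝ) ^ (NN a b n).factorization p := by
      intro T hT
      rw [cw_eq w ha]
      refine Finset.sum_congr rfl fun n _ => ?_
      rw [Finset.prod_union (Finset.disjoint_of_subset_right hT hd)]
      ring
    have h4 : EE δ F (fun T => cw w (lamT (T₁ ∪ T)) a b H) =
        EE δ F (fun T => ∑ n ∈ Icc 1 H, w n * (((cm (fun _ => -1) (NN a b n) : ℤ) : ℝ) *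
        (∏ p ∈ T₁, (-1 : ℝ) ^ (NN a b n).factorization p)) *
        ∏ p ∈ T, (-1 : ℝ) ^ (NN a b n).factorization p) := by
      unfold EE
      refine Finset.sum_congr rfl fun T hT => ?_
      beta_reduce
      rw [h3 T (Finset.mem_powerset.1 hT)]
    rw [h4, Pool.Agent.U26Z.NL.EE_sum]
    refine Finset.sum_congr rfl fun n _ => ?_
    rw [Pool.Agent.U26Z.NL.EE_smul, Pool.Agent.U26Z.NL.EE_prod]
    rfl
  rw [h2]
  refine (Finset.abs_sum_le_sum_abs _ _).trans (Finset.sum_le_sum fun n _ => ?_)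
  have h6 : 0 ≤ ∏ p ∈ F, nf (δ p) ((NN a b n).factorization p) :=
    Finset.prod_nonneg fun p _ => Pool.Agent.U26Z.NL.nf_nonneg (h0 p) (h1 p) _
  rw [abs_mul, abs_mul, abs_mul, Pool.Agent.U26Z.NL.lam_abs', Pool.Agent.U26Z.NL.sgn_abs,
    mul_one, mul_one, abs_of_nonneg h6]
  calc |w n| * _ ≤ 1 * _ := mul_le_mul_of_nonneg_right (hw n) h6
    _ = _ := one_mul _

/-- a prime divisor of one form only -/
theorem val_one (ha : ∀ i, 1 ≤ a i) {y : ℕ}
    (hab : ∀ i j, i ≠ j → (a i * b j : ℤ) - a j * b i ≠ 0 ∧ |(a i * b j : ℤ) - a j * b i| ≤ y)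
    {n p : ℕ} (hn : 1 ≤ n) (hp : p.Prime) (hyp : y < p)
    (i : Fin k) (h1 : p ∣ a i * n + b i) (h2 : ¬ p ^ 2 ∣ a i * n + b i) :
    (NN a b n).factorization p = 1 := by
  unfold NN
  rw [Nat.factorization_prod (fun j _ => L_ne ha hn j), Finset.sum_apply']
  rw [Finset.sum_eq_single i]
  · have h3 : 1 ≤ (a i * n + b i).factorization p :=
      (hp.dvd_iff_one_le_factorization (L_ne ha hn i)).1 h1
    have h4 : ¬ 2 ≤ (a i * n + b i).factorization p := fun h =>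
      h2 ((hp.pow_dvd_iff_le_factorization (L_ne ha hn i)).2 h)
    omega
  · intro j _ hj
    apply Nat.factorization_eq_zero_of_not_dvd
    intro h3
    have h4 : (p : ℤ) ∣ (a i : ℤ) * b j - a j * b i := by
      have h5 : (p : ℤ) ∣ (a i * n + b i : ℤ) := by exact_mod_cast h1
      have h6 : (p : ℤ) ∣ (a j * n + b j : ℤ) := by exact_mod_cast h3
      have h7 := (h6.mul_left (a i : ℤ)).sub (h5.mul_left (a j : ℤ))
      have e : (a i : ℤ) * b j - a j * b i = a i * (a j * n + b j) - a j * (a i * n + b i) := by ring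
      rw [e]
      exact h7
    have h5 : |(a i : ℤ) * b j - a j * b i| < p := by
      have h8 := (hab i j (Ne.symm hj)).2
      have h12 : (y : ℤ) < p := by exact_mod_cast hyp
      exact lt_of_le_of_lt h8 h12
    exact (hab i j (Ne.symm hj)).1 (Int.eq_zero_of_abs_lt_dvd h4 h5)
  · intro h3
    exact absurd (Finset.mem_univ i) h3

/-- few large prime factors -/
theorem few_big {H E m : ℕ} (hH : 2 ≤ H) (hm : m ≠ 0) (hmE : m ≤ H ^ E) (F : Finset ℕ)
    (hF : ∀ p ∈ F, p.Prime ∧ H < p) : (F.filter (fun p => p ∣ m)).card ≤ E := by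
  have h1 : H ^ (F.filter (fun p => p ∣ m)).card ≤ ∏ p ∈ F.filter (fun p => p ∣ m), p := by
    rw [← Finset.prod_const]
    exact Finset.prod_le_prod' fun p hp => (hF p (mem_filter.1 hp).1).2.le
  have h2 : ∏ p ∈ F.filter (fun p => p ∣ m), p ∣ m := by
    apply Finset.prod_primes_dvd
    · intro p hp
      exact (hF p (mem_filter.1 hp).1).1.prime
    · intro p hp
      exact (mem_filter.1 hp).2
  have h3 := (h1.trans (Nat.le_of_dvd (Nat.pos_of_ne_zero hm) h2)).trans hmE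
  exact (Nat.pow_le_pow_iff_right hH).1 h3

theorem Dn_le (ha : ∀ i, 1 ≤ a i) {H p : ℕ} (hp : p.Prime) (hap : ∀ i, a i < p) :
    (Dn a b H p : ℝ) ≤ k * ((H : ℝ) / p + 1) := cntN ha H hp hap

/-- the sum of `D` over the large primes -/
theorem Dn_sum (ha : ∀ i, 1 ≤ a i) {H E : ℕ} (hH : 2 ≤ H) (hU : ∀ i, a i * H + b i ≤ H ^ E) (F : Finset ℕ)
    (hF : ∀ p ∈ F, p.Prime ∧ H < p) : ∑ p ∈ F, Dn a b H p ≤ H * (k * E) := by
  classical
  have h1 : ∑ p ∈ F, Dn a b H p = ∑ n ∈ Icc 1 H, (F.filter (fun p => p ∣ NN a b n)).card := by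
    unfold Dn
    simp only [Finset.card_filter]
    exact Finset.sum_comm
  rw [h1]
  have h2 : ∀ n ∈ Icc 1 H, (F.filter (fun p => p ∣ NN a b n)).card ≤ k * E := by
    intro n hn
    rw [mem_Icc] at hn
    have h3 : F.filter (fun p => p ∣ NN a b n) ⊆
        (univ : Finset (Fin k)).biUnion (fun i => F.filter (fun p => p ∣ a i * n + b i)) := by
      intro p hp
      rw [mem_filter] at hp
      rw [mem_biUnion]
      obtain ⟨i, hi, h4⟩ := (Prime.dvd_finset_prod_iff (hF p hp.1).1.prime _).1 hp.2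
      exact ⟨i, hi, mem_filter.2 ⟨hp.1, h4⟩⟩
    refine (Finset.card_le_card h3).trans (Finset.card_biUnion_le.trans ?_)
    have h4 : ∀ i ∈ (univ : Finset (Fin k)), (F.filter (fun p => p ∣ a i * n + b i)).card ≤ E := by
      intro i _
      refine few_big hH (L_ne ha hn.1 i) ?_ F hF
      refine le_trans ?_ (hU i)
      have : a i * n ≤ a i * H := Nat.mul_le_mul_left _ hn.2
      omega
    refine (Finset.sum_le_sum h4).trans (le_of_eq ?_)
    rw [Finset.sum_const, Finset.card_univ, Fintype.card_fin, smul_eq_mul]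
  refine (Finset.sum_le_sum h2).trans (le_of_eq ?_)
  rw [Finset.sum_const, Nat.card_Icc, Nat.add_sub_cancel, smul_eq_mul]

/-- **the main estimate on the cube** -/
theorem cube (δ : ℕ → ℝ) (h0 : ∀ p, 0 ≤ δ p) (h1 : ∀ p, δ p ≤ 1 / 2) (hk : 0 < k) (hw : ∀ n, |w n| ≤ 1)
    (ha : ∀ i, 1 ≤ a i) {H y z E : ℕ} (hay : ∀ i, a i ≤ y)
    (hab : ∀ i j, i ≠ j → (a i * b j : ℤ) - a j * b i ≠ 0 ∧ |(a i * b j : ℤ) - a j * b i| ≤ y)
    (hy1 : 1 ≤ y) (hyH : y ≤ H) (hH : 2 ≤ H) (hz : 1 ≤ z) (hzH : z ^ 3 ≤ H)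
    (hU : ∀ i, a i * H + b i ≤ H ^ E) {M : ℝ}
    (hM : M = ∑ p ∈ (Icc 1 z).filter (fun p => p.Prime ∧ y < p), δ p / p) (hM1 : 1 ≤ M)
    {ε : ℝ} (hε : 0 < ε) (hsm : 1 / y + 22 / M ≤ ε / 2) :
    EE δ ((Icc 1 (H ^ E)).filter Nat.Prime)
      (fun T => if ε * H ≤ |cw w (lamT T) a b H| then 1 else 0) ≤
      2 * Real.exp (-(ε ^ 2 / (64 * k ^ 2 * (2 + E)) * y)) := by
  classical
  have h1' : ∀ p, δ p ≤ 1 := fun p => (h1 p).trans (by norm_num)
  have hH0 : (0 : ℝ) < H := by exact_mod_cast (by omega : 0 < H)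
  have hy0 : (0 : ℝ) < y := by exact_mod_cast hy1
  have hyH' : (y : ℝ) ≤ H := by exact_mod_cast hyH
  have hk0 : (0 : ℝ) < k := by exact_mod_cast hk
  have hE1 : 1 ≤ E := by
    rcases Nat.eq_zero_or_pos E with h | h
    · have h2 := hU ⟨0, hk⟩
      have h3 : H ≤ a ⟨0, hk⟩ * H := Nat.le_mul_of_pos_left H (ha _)
      rw [h, pow_zero] at h2
      omega
    · exact h
  obtain ⟨F₁, hF₁⟩ : ∃ F₁, F₁ = (Icc 1 (H ^ E)).filter (fun p => p.Prime ∧ p ≤ y) := ⟨_, rfl⟩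
  obtain ⟨F₂, hF₂⟩ : ∃ F₂, F₂ = (Icc 1 (H ^ E)).filter (fun p => p.Prime ∧ y < p) := ⟨_, rfl⟩
  have hU' : (Icc 1 (H ^ E)).filter Nat.Prime = F₁ ∪ F₂ := by
    rw [hF₁, hF₂]
    ext p
    simp only [mem_filter, mem_union]
    constructor
    · rintro ⟨h2, h3⟩
      rcases le_or_gt p y with h4 | h4
      · exact Or.inl ⟨h2, h3, h4⟩
      · exact Or.inr ⟨h2, h3, h4⟩
    · rintro (⟨h2, h3, h4⟩ | ⟨h2, h3, h4⟩) <;> exact ⟨h2, h3⟩
  have hdis : Disjoint F₁ F₂ := by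
    rw [Finset.disjoint_left, hF₁, hF₂]
    intro p hp hp'
    rw [mem_filter] at hp hp'
    omega
  have hmF₂ : ∀ p ∈ F₂, p.Prime ∧ y < p := fun p hp => by
    rw [hF₂, mem_filter] at hp
    exact hp.2
  rw [hU']
  refine Pool.Agent.U26Z.NL.EE_union h0 h1' F₁ hdis _ fun T₁ hT₁ => ?_
  obtain ⟨V, hV⟩ : ∃ V : ℝ, V = 8 * k ^ 2 * (2 + E) * H ^ 2 / y := ⟨_, rfl⟩
  have hV0 : 0 < V := by rw [hV]; positivity
  have hbd : BD (fun p => 2 * (Dn a b H p : ℝ)) F₂ (fun T => cw w (lamT (T₁ ∪ T)) a b H) := by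
    intro p hp T _
    have h3 := bdiff (a := a) (b := b) hw ha H p (T₁ ∪ T)
    simp only [Finset.union_insert]
    exact h3
  have hcV : ∑ p ∈ F₂, (2 * (Dn a b H p : ℝ)) ^ 2 ≤ V := by
    have hs : ∀ p ∈ F₂.filter (fun p => p ≤ H), (2 * (Dn a b H p : ℝ)) ^ 2 ≤
        8 * k ^ 2 * H ^ 2 * (1 / (p : ℝ) ^ 2) + 8 * k ^ 2 := by
      intro p hp
      rw [mem_filter] at hp
      have h2 := hmF₂ p hp.1
      have h3 := Dn_le (b := b) (H := H) ha h2.1 (fun i => lt_of_le_of_lt (hay i) h2.2)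
      have h4 : (2 * (Dn a b H p : ℝ)) ^ 2 ≤ (2 * (k * ((H : ℝ) / p + 1))) ^ 2 :=
        pow_le_pow_left₀ (by positivity) (by linarith) 2
      have h5 : ((H : ℝ) / p + 1) ^ 2 ≤ 2 * (H ^ 2 * (1 / (p : ℝ) ^ 2)) + 2 := by
        have h4 : (H : ℝ) ^ 2 * (1 / (p : ℝ) ^ 2) = ((H : ℝ) / p) ^ 2 := by
          rw [div_pow]; ring
        rw [h4]
        nlinarith [sq_nonneg ((H : ℝ) / p - 1)]
      have h6 := mul_le_mul_of_nonneg_left h5 (show (0 : ℝ) ≤ 4 * k ^ 2 by positivity)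
      calc _ ≤ _ := h4
        _ = 4 * k ^ 2 * ((H : ℝ) / p + 1) ^ 2 := by ring
        _ ≤ _ := h6
        _ = _ := by ring
    have hb' : ∀ p ∈ F₂.filter (fun p => ¬ p ≤ H), (2 * (Dn a b H p : ℝ)) ^ 2 ≤
        8 * k * (Dn a b H p : ℝ) := by
      intro p hp
      rw [mem_filter, not_le] at hp
      have h2 := hmF₂ p hp.1
      have hp0 : (0 : ℝ) < p := by exact_mod_cast h2.1.pos
      have h3 := Dn_le (b := b) (H := H) ha h2.1 (fun i => lt_of_le_of_lt (hay i) h2.2)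
      have h4 : (H : ℝ) / p ≤ 1 := by
        rw [div_le_one hp0]
        exact_mod_cast hp.2.le
      have h5 : (Dn a b H p : ℝ) ≤ 2 * k := by nlinarith
      have h6 : (0 : ℝ) ≤ Dn a b H p := Nat.cast_nonneg _
      nlinarith
    have hS1 : ∑ p ∈ F₂.filter (fun p => p ≤ H), (2 * (Dn a b H p : ℝ)) ^ 2 ≤
        8 * (k : ℝ) ^ 2 * (H : ℝ) ^ 2 * (1 / (y : ℝ)) + 8 * (k : ℝ) ^ 2 * (H : ℝ) := by
      refine (Finset.sum_le_sum hs).trans ?_
      rw [Finset.sum_add_distrib, ← Finset.mul_sum, Finset.sum_const, nsmul_eq_mul]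
      apply add_le_add
      · apply mul_le_mul_of_nonneg_left _ (by positivity)
        exact Pool.Agent.U26Z.NL.sum_sq_le hy1 _ (fun p hp => (hmF₂ p (mem_filter.1 hp).1).2)
      · rw [mul_comm]
        apply mul_le_mul_of_nonneg_left _ (by positivity)
        have h2 : (F₂.filter (fun p => p ≤ H)).card ≤ H := by
          have h3 : F₂.filter (fun p => p ≤ H) ⊆ Icc 1 H := by
            intro p hp
            rw [mem_filter] at hp
            rw [mem_Icc]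
            exact ⟨(hmF₂ p hp.1).1.one_lt.le, hp.2⟩
          have := Finset.card_le_card h3
          simpa using this
        exact_mod_cast h2
    have hS2 : ∑ p ∈ F₂.filter (fun p => ¬ p ≤ H), (2 * (Dn a b H p : ℝ)) ^ 2 ≤
        8 * (k : ℝ) ^ 2 * (E : ℝ) * (H : ℝ) := by
      refine (Finset.sum_le_sum hb').trans ?_
      rw [← Finset.mul_sum]
      have h2 := Dn_sum ha hH hU (F₂.filter (fun p => ¬ p ≤ H)) (fun p hp => by
        rw [mem_filter, not_le] at hp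
        exact ⟨(hmF₂ p hp.1).1, hp.2⟩)
      have h3 : ∑ p ∈ F₂.filter (fun p => ¬ p ≤ H), (Dn a b H p : ℝ) ≤ H * (k * E) := by
        exact_mod_cast h2
      calc _ ≤ 8 * (k : ℝ) * (H * (k * E)) := mul_le_mul_of_nonneg_left h3 (by positivity)
        _ = _ := by ring
    rw [← Finset.sum_filter_add_sum_filter_not F₂ (fun p => p ≤ H)]
    have h2 : (H : ℝ) ≤ H ^ 2 / y := by
      rw [le_div_iff₀ hy0]
      nlinarith
    have h3 : 8 * (k : ℝ) ^ 2 * H ≤ 8 * k ^ 2 * (H ^ 2 / y) := mul_le_mul_of_nonneg_left h2 (by positivity)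
    have h4 : 8 * (k : ℝ) ^ 2 * E * H ≤ 8 * k ^ 2 * E * (H ^ 2 / y) :=
      mul_le_mul_of_nonneg_left h2 (by positivity)
    calc _ ≤ (8 * (k : ℝ) ^ 2 * H ^ 2 * (1 / y) + 8 * k ^ 2 * H) + 8 * k ^ 2 * E * H := add_le_add hS1 hS2
      _ ≤ (8 * (k : ℝ) ^ 2 * H ^ 2 * (1 / y) + 8 * k ^ 2 * (H ^ 2 / y)) + 8 * k ^ 2 * E * (H ^ 2 / y) := by
          linarith
      _ = V := by rw [hV]; ring
  have hE : |EE δ F₂ (fun T => cw w (lamT (T₁ ∪ T)) a b H)| ≤ ε * H / 2 := by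
    refine (condMean δ h0 h1 hw ha H T₁ F₂ (Finset.disjoint_of_subset_left hT₁ hdis)).trans ?_
    have h2 : ∑ n ∈ Icc 1 H, ∏ p ∈ F₂, nf (δ p) ((NN a b n).factorization p) ≤
        H * (1 / y + 22 / M) := by
      refine smallMean δ h0 h1 (a := a ⟨0, hk⟩) (b ⟨0, hk⟩) H y z (ha _) (hay _)
        ((Icc 1 z).filter (fun p => p.Prime ∧ y < p)) ?_ hz hzH hM hM1
        (fun n => ∏ p ∈ F₂, nf (δ p) ((NN a b n).factorization p)) ?_ ?_
      · intro p hp
        rw [mem_filter, mem_Icc] at hp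
        exact ⟨hp.2.1, hp.2.2, hp.1.2⟩
      · intro n _
        exact Finset.prod_le_one (fun p _ => Pool.Agent.U26Z.NL.nf_nonneg (h0 p) (h1 p) _)
          (fun p _ => Pool.Agent.U26Z.NL.nf_le (h0 p) _)
      · intro n hn h3
        rw [mem_Icc] at hn
        obtain ⟨Q, hQ⟩ : ∃ Q, Q = ((Icc 1 z).filter (fun p => p.Prime ∧ y < p)).filter
          (fun p => p ∣ a ⟨0, hk⟩ * n + b ⟨0, hk⟩) := ⟨_, rfl⟩
        rw [← hQ]
        have hQF : Q ⊆ F₂ := by
          intro p hp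
          rw [hQ, mem_filter, mem_filter, mem_Icc] at hp
          rw [hF₂, mem_filter, mem_Icc]
          refine ⟨⟨hp.1.1.1, ?_⟩, hp.1.2⟩
          have h4 : z ≤ z ^ 3 := Nat.le_self_pow (by norm_num) z
          have h5 : H ≤ H ^ E := Nat.le_self_pow (by omega) H
          omega
        have h4 : ∏ p ∈ F₂, nf (δ p) ((NN a b n).factorization p) ≤
            ∏ p ∈ Q, nf (δ p) ((NN a b n).factorization p) := by
          rw [← Finset.prod_sdiff hQF]
          have h5 : ∏ p ∈ F₂ \ Q, nf (δ p) ((NN a b n).factorization p) ≤ 1 :=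
            Finset.prod_le_one (fun p _ => Pool.Agent.U26Z.NL.nf_nonneg (h0 p) (h1 p) _)
              (fun p _ => Pool.Agent.U26Z.NL.nf_le (h0 p) _)
          have h6 : 0 ≤ ∏ p ∈ Q, nf (δ p) ((NN a b n).factorization p) :=
            Finset.prod_nonneg fun p _ => Pool.Agent.U26Z.NL.nf_nonneg (h0 p) (h1 p) _
          nlinarith
        refine h4.trans (le_of_eq ?_)
        refine Finset.prod_congr rfl fun p hp => ?_
        have hp' := hp
        rw [hQ, mem_filter, mem_filter] at hp'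
        have h5 : (NN a b n).factorization p = 1 := by
          refine val_one ha hab hn.1 hp'.1.2.1 hp'.1.2.2 ⟨0, hk⟩ hp'.2 (h3 p ?_)
          rw [mem_filter]
          exact hp'.1
        rw [h5, Pool.Agent.U26Z.NL.nf_one]
    refine h2.trans ?_
    have h3 := mul_le_mul_of_nonneg_left hsm hH0.le
    linarith
  have h2 := Pool.Agent.U26Z.NL.tail2 h0 h1' (fun p => 2 * (Dn a b H p : ℝ)) F₂ _ hbd hV0 hcV
    (show 0 ≤ ε * H / 2 by positivity) hE
  have h3 : 2 * (ε * H / 2) = ε * H := by ring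
  rw [h3] at h2
  refine h2.trans (le_of_eq ?_)
  congr 3
  rw [hV]
  field_simp
  ring

end Pool.Agent.U26Z.NS
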